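import Pool.Agent.Helper28.ND.Spec

/-!
# ND: auxiliary lemmas for KEY1, KEY2
-/

open MeasureTheory Set Filter Topology
open scoped ENNReal NNReal

namespace Pool.Agent.H62.ND

open Pool.Agent.Helper28.ND

theorem Q_meas (d : ℕ) : MeasurableSet (Q d) := MeasurableSet.univ_pi fun _ => measurableSet_Ioc

theorem Q_vol (d : ℕ) : volume (Q d) = 1 := by
  unfold Q
  rw [volume_pi_pi]
  simp

instance (d : ℕ) : IsFiniteMeasure (volume.restrict (Q d)) :=
  ⟨by rw [Measure.restrict_apply_univ, Q_vol]; exact ENNReal.one_lt_top⟩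

theorem src_FF {d : ℕ} {S K H : ℝ} {c : ℝ → (Fin d → ℝ) → (Fin d → ℝ)}
    {h : ℝ → (Fin d → ℝ) → ℝ} {v : ℝ → (Fin d → ℝ) → (Fin d → ℝ)}
    (hD : Dual d S K H c h v) : Src S (FF c h v) := by
  have hd := hD.dat
  refine ⟨?_, ?_, ?_, ?_⟩
  · have m1 : ∀ i : Fin d, Measurable (fun z : ℝ × (Fin d → ℝ) => U c z i) := fun i =>
      (measurable_pi_apply i).comp hd.measc
    have m2 : ∀ i : Fin d, Measurable (fun z : ℝ × (Fin d → ℝ) => U v z i) := fun i =>
      (measurable_pi_apply i).comp hD.measv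
    have : U (FF c h v) = fun z => (∑ i, U c z i * U v z i) + U h z := rfl
    rw [this]
    exact (Finset.measurable_sum _ fun i _ => (m1 i).mul (m2 i)).add hd.meash
  · intro t x k
    have h1 := hd.perc t x k
    have h2 := hD.perv t x k
    have h3 := hd.perh t x k
    unfold FF
    rw [h1, h2, h3]
  · obtain ⟨B, hB⟩ := hD.bv
    refine ⟨(∑ _i : Fin d, K * B) + H, fun t x => ?_⟩
    unfold FF
    refine (abs_add_le _ _).trans (add_le_add ?_ (hd.bh t x))
    refine (Finset.abs_sum_le_sum_abs _ _).trans (Finset.sum_le_sum fun i _ => ?_)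
    rw [abs_mul]
    have h1 := hd.bc t x i
    exact mul_le_mul h1 (hB t x i) (abs_nonneg _) ((abs_nonneg _).trans h1)
  · intro t ht x
    have ht' : t ≤ 1 ∨ S ≤ t := ht.imp (fun h => by linarith) id
    unfold FF
    rw [hd.sh t ht' x]
    simp [hd.sc t ht' x]

theorem bmp_of_src {d : ℕ} {S : ℝ} {F : ℝ → (Fin d → ℝ) → ℝ} (h : Src S F) : BMP F :=
  ⟨h.meas, h.per, h.bdd⟩

/-- iterated integrals as integrals over the product -/
theorem iter_eq {d : ℕ} {I : Set ℝ} {G : ℝ × (Fin d → ℝ) → ℝ}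
    (hG : IntegrableOn G (I ×ˢ Q d)) :
    ∫ t in I, ∫ x in Q d, G (t, x) = ∫ z in I ×ˢ Q d, G z := by
  rw [Measure.volume_eq_prod] at hG ⊢
  exact (setIntegral_prod G hG).symm

theorem prod_finite {d : ℕ} {I : Set ℝ} (hI : volume I ≠ ⊤) :
    volume (I ×ˢ Q d) ≠ ⊤ := by
  rw [Measure.volume_eq_prod, Measure.prod_prod, Q_vol, mul_one]
  exact hI

/-- bounded measurable functions are integrable -/
theorem int_bdd {d : ℕ} {I : Set ℝ} (hIm : MeasurableSet I) (hI : volume I ≠ ⊤)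
    {G : ℝ × (Fin d → ℝ) → ℝ} (hG : Measurable G) {B : ℝ}
    (hB : ∀ z : ℝ × (Fin d → ℝ), z.1 ∈ I → |G z| ≤ B) : IntegrableOn G (I ×ˢ Q d) := by
  refine Measure.integrableOn_of_bounded (prod_finite hI) hG.aestronglyMeasurable
    (M := B) ?_
  rw [ae_restrict_iff' (hIm.prod (Q_meas d))]
  exact Eventually.of_forall fun z hz => hB z hz.1

/-- the bound of mollifications, all at once -/
theorem mol_bdd (hM : S_MOLG) {d : ℕ} {D : ℝ → (Fin d → ℝ) → ℝ} (hD : BMP D) :
    ∃ B : ℝ, 0 ≤ B ∧ (∀ t x, |D t x| ≤ B) ∧ ∀ (n : ℕ) t x, 1 ≤ t → |mol n D t x| ≤ B := by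
  obtain ⟨B, hB⟩ := hD.bdd
  refine ⟨max B 0, le_max_right _ _, fun t x => (hB t x).trans (le_max_left _ _),
    fun n t x ht => ?_⟩
  refine ((hM d D hD).2.1 (max B 0) (Eventually.of_forall fun z _ =>
    (hB z.1 z.2).trans (le_max_left _ _)) n t x ?_)
  refine lt_of_lt_of_le ?_ ht
  rw [div_lt_one (by positivity)]
  have : (0 : ℝ) ≤ n := Nat.cast_nonneg n
  linarith

theorem mol_meas (hM : S_MOLG) {d : ℕ} {D : ℝ → (Fin d → ℝ) → ℝ} (hD : BMP D) (n : ℕ) :
    Continuous (U (mol n D)) := ((hM d D hD).1 n).smooth.continuous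

/-- Cauchy–Schwarz -/
theorem cs {X : Type} [MeasurableSpace X] {μ : Measure X} {f g : X → ℝ}
    (hf : Integrable (fun x => f x ^ 2) μ) (hg : Integrable (fun x => g x ^ 2) μ)
    (hfg : Integrable (fun x => f x * g x) μ) :
    |∫ x, f x * g x ∂μ| ≤ Real.sqrt (∫ x, f x ^ 2 ∂μ) * Real.sqrt (∫ x, g x ^ 2 ∂μ) := by
  set A := ∫ x, f x ^ 2 ∂μ with hA
  set C := ∫ x, g x ^ 2 ∂μ with hC
  set B := ∫ x, f x * g x ∂μ with hB
  have hA0 : 0 ≤ A := integral_nonneg fun x => sq_nonneg _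
  have h1 : ∀ t : ℝ, 0 ≤ A * (t * t) + (2 * B) * t + C := by
    intro t
    have h2 : 0 ≤ ∫ x, (t * t * f x ^ 2 + 2 * t * (f x * g x) + g x ^ 2) ∂μ := by
      refine integral_nonneg fun x => ?_
      simp only [Pi.zero_apply]
      nlinarith [sq_nonneg (t * f x + g x)]
    have i12 : Integrable (fun x => t * t * f x ^ 2 + 2 * t * (f x * g x)) μ :=
      (hf.const_mul (t * t)).add (hfg.const_mul (2 * t))
    rw [integral_add i12 hg,
      integral_add (hf.const_mul (t * t)) (hfg.const_mul (2 * t)), integral_const_mul,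
      integral_const_mul] at h2
    linarith
  have h3 := discrim_le_zero h1
  unfold discrim at h3
  rw [← Real.sqrt_mul hA0]
  refine Real.abs_le_sqrt ?_
  nlinarith

end Pool.Agent.H62.ND
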