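import Pool.Agent.H62.ND.Base

/-!
# ND: part KEY1
-/

open MeasureTheory Set Filter Topology
open scoped ENNReal NNReal

namespace Pool.Agent.H62.ND.KEY1

open Pool.Agent.Helper28.ND Pool.Agent.H62.ND

theorem iterL {d : ℕ} {I : Set ℝ} {f : ℝ × (Fin d → ℝ) → ℝ≥0∞} (hf : Measurable f) :
    ∫⁻ z in I ×ˢ Q d, f z = ∫⁻ t in I, ∫⁻ x in Q d, f (t, x) := by
  rw [Measure.volume_eq_prod, ← Measure.prod_restrict, lintegral_prod _ hf.aemeasurable]

theorem main (hWEQ : S_WEQ) (hKB : S_KB) (hMOLG : S_MOLG) (hMOLD : S_MOLD) (hINTG : S_INTG) :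
    S_KEY1 := by
  intro d T p q b u0 u hT hq hpq hDr hSol S K H c h v hS hST hD L hL hLn
  have hS0 : 0 < S := by linarith
  obtain ⟨g1, -, -, g4, g5⟩ := hINTG d T p q b u0 u hT hq hpq hDr hSol
  set F := FF c h v with hF
  have hsrc : Src S F := src_FF hD
  obtain ⟨bΦ, bV, hz, -⟩ := hKB d S F hS0 hsrc
  have bF : BMP F := bmp_of_src hsrc
  set Φ := Phi S F with hΦ
  obtain ⟨B1, hB10, hB1, hB1'⟩ := mol_bdd hMOLG bΦ
  obtain ⟨B2, hB20, hB2, hB2'⟩ := mol_bdd hMOLG bF
  choose B3 hB30 hB3 hB3' using fun i => mol_bdd hMOLG (bV i)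
  set I := Ioo (0 : ℝ) T with hI
  have hIm : MeasurableSet I := measurableSet_Ioo
  have hIf : volume I ≠ ⊤ := by rw [hI, Real.volume_Ioo]; exact ENNReal.ofReal_ne_top
  -- the shift in time
  set sh : ℝ × (Fin d → ℝ) → ℝ × (Fin d → ℝ) := fun z => (z.1 + 1, z.2) with hsh
  have msh : Measurable sh := by rw [hsh]; fun_prop
  have qsh : Measure.QuasiMeasurePreserving sh volume volume := by
    have h1 := (measurePreserving_add_right (volume : Measure ℝ) 1).prod
      (MeasurePreserving.id (volume : Measure (Fin d → ℝ)))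
    exact h1.quasiMeasurePreserving
  -- the integrands
  set G : ℕ → ℝ × (Fin d → ℝ) → ℝ := fun n z =>
    U u z * (-U (mol n F) (sh z) + ∑ i, U b z i * U (mol n (Vel S F i)) (sh z)) with hG
  set G0 : ℝ × (Fin d → ℝ) → ℝ := fun z =>
    U u z * (-U F (sh z) + ∑ i, U b z i * U (Vel S F i) (sh z)) with hG0
  have mu : Measurable (U u) := hSol.meas
  have mb : ∀ i, Measurable (fun z => U b z i) := fun i =>
    (measurable_pi_apply i).comp hDr.meas
  have mG : ∀ n, Measurable (G n) := fun n =>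
    mu.mul ((((mol_meas hMOLG bF n).measurable.comp msh).neg).add
      (Finset.measurable_sum _ fun i _ =>
        (mb i).mul ((mol_meas hMOLG (bV i) n).measurable.comp msh)))
  have mG0 : Measurable G0 :=
    mu.mul (((bF.meas.comp msh).neg).add
      (Finset.measurable_sum _ fun i _ => (mb i).mul ((bV i).meas.comp msh)))
  set D : ℝ × (Fin d → ℝ) → ℝ := fun z =>
    B2 * (1 + U u z ^ 2) + (∑ i, B3 i) * (|U u z| * ‖U b z‖) with hDd
  have dom : ∀ (z : ℝ × (Fin d → ℝ)) (y : ℝ) (w : Fin d → ℝ), |y| ≤ B2 → (∀ i, |w i| ≤ B3 i) →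
      |U u z * (-y + ∑ i, U b z i * w i)| ≤ D z := by
    intro z y w hy hw
    rw [abs_mul, hDd]
    have h1 : |(-y + ∑ i, U b z i * w i)| ≤ B2 + (∑ i, B3 i) * ‖U b z‖ := by
      refine (abs_add_le _ _).trans (add_le_add (by rwa [abs_neg]) ?_)
      refine (Finset.abs_sum_le_sum_abs _ _).trans ?_
      rw [Finset.sum_mul]
      refine Finset.sum_le_sum fun i _ => ?_
      rw [abs_mul, mul_comm]
      have h2 : |U b z i| ≤ ‖U b z‖ := by
        rw [← Real.norm_eq_abs]
        exact norm_le_pi_norm _ i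
      exact mul_le_mul (hw i) h2 (abs_nonneg _) (hB30 i)
    have h3 : |U u z| ≤ 1 + U u z ^ 2 := by
      rw [← sq_abs (U u z)]
      nlinarith [sq_nonneg (|U u z| - 1), abs_nonneg (U u z)]
    calc |U u z| * |(-y + ∑ i, U b z i * w i)|
        ≤ |U u z| * (B2 + (∑ i, B3 i) * ‖U b z‖) :=
          mul_le_mul_of_nonneg_left h1 (abs_nonneg _)
      _ = B2 * |U u z| + (∑ i, B3 i) * (|U u z| * ‖U b z‖) := by ring
      _ ≤ _ := by
          have := mul_le_mul_of_nonneg_left h3 hB20
          linarith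
  -- integrability of the dominating function
  have iu2 : IntegrableOn (fun z => U u z ^ 2) (I ×ˢ Q d) := by
    refine ⟨(mu.pow_const 2).aestronglyMeasurable, ?_⟩
    rw [hasFiniteIntegral_iff_ofReal (Eventually.of_forall fun z => sq_nonneg _),
      iterL (mu.pow_const 2).ennreal_ofReal]
    exact g4
  have iub : IntegrableOn (fun z => |U u z| * ‖U b z‖) (I ×ˢ Q d) := by
    have m1 : Measurable fun z => |U u z| * ‖U b z‖ := by
      have h1 := mu.norm
      have h2 := hDr.meas.norm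
      exact h1.mul h2
    refine ⟨m1.aestronglyMeasurable, ?_⟩
    rw [hasFiniteIntegral_iff_enorm, iterL m1.enorm]
    refine lt_of_eq_of_lt ?_ g1
    congr 1
    funext t
    congr 1
    funext x
    rw [enorm_mul, enorm_norm]
    congr 1
    rw [← Real.norm_eq_abs, enorm_norm]
    rfl
  have iD : IntegrableOn D (I ×ˢ Q d) := by
    have h1 : IntegrableOn (fun _ : ℝ × (Fin d → ℝ) => (1 : ℝ)) (I ×ˢ Q d) :=
      integrableOn_const (prod_finite hIf)
    exact ((h1.add iu2).const_mul B2).add (iub.const_mul (∑ i, B3 i))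
  have bG : ∀ n z, z.1 ∈ I → |G n z| ≤ D z := fun n z hzI =>
    dom z _ _ (hB2' n _ _ (by have := hzI.1; linarith))
      (fun i => hB3' i n _ _ (by have := hzI.1; linarith))
  have bG0 : ∀ z, |G0 z| ≤ D z := fun z => dom z _ _ (hB2 _ _) (fun i => hB3 i _ _)
  have iG : ∀ n, IntegrableOn (G n) (I ×ˢ Q d) := fun n => by
    refine iD.mono' (mG n).aestronglyMeasurable ?_
    rw [ae_restrict_iff' (hIm.prod (Q_meas d))]
    exact Eventually.of_forall fun z hz => bG n z hz.1
  have iG0 : IntegrableOn G0 (I ×ˢ Q d) :=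
    iD.mono' mG0.aestronglyMeasurable (Eventually.of_forall bG0)
  -- the limit
  have lim : Tendsto (fun n => ∫ z in I ×ˢ Q d, G n z) atTop (𝓝 (∫ z in I ×ˢ Q d, G0 z)) := by
    refine tendsto_integral_of_dominated_convergence D
      (fun n => (mG n).aestronglyMeasurable) iD ?_ ?_
    · intro n
      rw [ae_restrict_iff' (hIm.prod (Q_meas d))]
      exact Eventually.of_forall fun z hz => bG n z hz.1
    · refine ae_restrict_of_ae ?_
      have a2 := qsh.ae (hMOLG d F bF).2.2.1
      have a3 : ∀ᵐ z : ℝ × (Fin d → ℝ), ∀ i,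
          Tendsto (fun n => U (mol n (Vel S F i)) (sh z)) atTop (𝓝 (U (Vel S F i) (sh z))) :=
        ae_all_iff.mpr fun i => qsh.ae (hMOLG d (Vel S F i) (bV i)).2.2.1
      filter_upwards [a2, a3] with z z2 z3
      exact (z2.neg.add (tendsto_finsetSum _ fun i _ => (z3 i).const_mul _)).const_mul _
  -- the datum
  have mu0 : Measurable u0 := hSol.meas0
  have iu0 : IntegrableOn (fun x => u0 x ^ 2) (Q d) := by
    refine ⟨(mu0.pow_const 2).aestronglyMeasurable, ?_⟩
    rw [hasFiniteIntegral_iff_ofReal (Eventually.of_forall fun z => sq_nonneg _)]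
    exact g5
  -- the equation
  have hev : ∀ᶠ n : ℕ in atTop, S + 1 / (4 * ((n : ℝ) + 1)) < 1 + T := by
    have h1 : Tendsto (fun n : ℕ => S + 1 / 4 * (1 / ((n : ℝ) + 1))) atTop
        (𝓝 (S + 1 / 4 * 0)) :=
      (tendsto_one_div_add_atTop_nhds_zero_nat.const_mul (1 / 4)).const_add S
    rw [mul_zero, add_zero] at h1
    filter_upwards [h1.eventually (gt_mem_nhds hST)] with n hn
    have e : 1 / (4 * ((n : ℝ) + 1)) = 1 / 4 * (1 / ((n : ℝ) + 1)) := by
      rw [one_div_mul_one_div]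
    rw [e]
    exact hn
  have ineq : ∀ᶠ n : ℕ in atTop, |∫ z in I ×ˢ Q d, G n z| ≤
      Real.sqrt (∫ x in Q d, (u0 x) ^ 2) * Real.sqrt L := by
    filter_upwards [hev, hLn] with n hn hLn
    set f : ℝ → (Fin d → ℝ) → ℝ := fun t x => mol n Φ (t + 1) x with hf
    have hsm := (hMOLG d Φ bΦ).1 n
    have hf0 : ∀ x, f 0 x = mol n Φ 1 x := fun x => by rw [hf]; simp
    have hT1 : IsTest T f := by
      refine ⟨⟨?_, fun t => hsm.per (t + 1)⟩, S + 1 / (4 * ((n : ℝ) + 1)) - 1, by linarith,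
        fun t ht x => ?_⟩
      · have h1 : ContDiff ℝ (⊤ : ℕ∞) (fun z : ℝ × (Fin d → ℝ) => (z.1 + 1, z.2)) := by
          fun_prop
        exact hsm.smooth.comp h1
      · exact (hMOLG d Φ bΦ).2.2.2 S (fun t ht x => (hz t ht x).1) n (t + 1) (by linarith) x
    have heq := hSol.eqn f hT1
    have hn1 : 1 / (4 * ((n : ℝ) + 1)) < 1 := by
      rw [div_lt_one (by positivity)]
      have : (0 : ℝ) ≤ n := Nat.cast_nonneg n
      linarith
    have h2 : (∫ t in Ioo 0 T, ∫ x in Q d, u t x * (dt f t x + (∑ i, b t x i * pd i (f t) x)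
        + lap (f t) x)) = ∫ t in I, ∫ x in Q d, G n (t, x) := by
      refine setIntegral_congr_fun measurableSet_Ioo fun t ht => ?_
      congr 1
      funext x
      have ht1 : 1 / (4 * ((n : ℝ) + 1)) < t + 1 := by
        have := ht.1
        linarith
      have h3 := (hMOLD d Φ F bΦ bF).1 (fun f hf => (hWEQ d S F hS0 hsrc f hf).1) n (t + 1) x ht1
      have h4 : ∀ i, pd i (mol n Φ (t + 1)) x = mol n (Vel S F i) (t + 1) x := fun i =>
        (hMOLD d Φ (Vel S F i) bΦ (bV i)).2 i
          (fun f hf => (hWEQ d S F hS0 hsrc f hf).2 i) n (t + 1) x ht1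
      have h5 : dt f t x = dt (mol n Φ) (t + 1) x := by
        unfold dt
        exact deriv_comp_add_const (fun s => mol n Φ s x) 1 t
      have h6 : lap (f t) x = lap (mol n Φ (t + 1)) x := rfl
      have h7 : ∀ i, pd i (f t) x = pd i (mol n Φ (t + 1)) x := fun i => rfl
      simp only [h5, h6, h7, h4]
      have h8 : dt (mol n Φ) (t + 1) x = -mol n F (t + 1) x - lap (mol n Φ (t + 1)) x := by
        linarith
      rw [h8]
      simp only [hG, hsh, U]
      ring
    rw [h2, iter_eq (iG n)] at heq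
    have h9 : ∫ z in I ×ˢ Q d, G n z = - ∫ x in Q d, u0 x * mol n Φ 1 x := by
      have e : (fun x => u0 x * f 0 x) = fun x => u0 x * mol n Φ 1 x := by
        funext x
        rw [hf0]
      rw [e] at heq
      linarith
    rw [h9, abs_neg]
    have mm : Measurable (fun x => mol n Φ 1 x) := by
      have h1 := (mol_meas hMOLG bΦ n).comp
        (Continuous.prodMk (continuous_const (y := (1 : ℝ))) (continuous_id (X := Fin d → ℝ)))
      exact h1.measurable
    have im : IntegrableOn (fun x => mol n Φ 1 x ^ 2) (Q d) := by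
      refine Measure.integrableOn_of_bounded (by rw [Q_vol]; exact ENNReal.one_ne_top)
        (mm.pow_const 2).aestronglyMeasurable (M := B1 ^ 2) (Eventually.of_forall fun x => ?_)
      rw [Real.norm_eq_abs, abs_pow]
      exact pow_le_pow_left₀ (abs_nonneg _) (hB1' n 1 x le_rfl) 2
    have ium : IntegrableOn (fun x => u0 x * mol n Φ 1 x) (Q d) := by
      refine (iu0.add im).mono' (mu0.mul mm).aestronglyMeasurable
        (Eventually.of_forall fun x => ?_)
      rw [Real.norm_eq_abs, abs_mul, Pi.add_apply, ← sq_abs (u0 x), ← sq_abs (mol n Φ 1 x)]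
      nlinarith [sq_nonneg (|u0 x| - |mol n Φ 1 x|), sq_nonneg (|u0 x|),
        sq_nonneg (|mol n Φ 1 x|), abs_nonneg (u0 x), abs_nonneg (mol n Φ 1 x)]
    refine (cs iu0 im ium).trans ?_
    exact mul_le_mul_of_nonneg_left (Real.sqrt_le_sqrt hLn) (Real.sqrt_nonneg _)
  have fin := le_of_tendsto lim.abs ineq
  have e1 : (∫ t in Ioo 0 T, ∫ x in Q d, u t x * (- FF c h v (t + 1) x
      + ∑ i, b t x i * v (t + 1) x i)) = ∫ z in I ×ˢ Q d, G0 z := by
    rw [← iter_eq iG0]
    congr 1
    funext t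
    congr 1
    funext x
    have : ∀ i, v (t + 1) x i = Vel S F i (t + 1) x := fun i => hD.eq (t + 1) x i
    simp only [this]
    rfl
  rw [e1]
  exact fin

end Pool.Agent.H62.ND.KEY1
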