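import Pool.Agent.H62.ND.Base

/-!
# ND: part KEY2
-/

open MeasureTheory Set Filter Topology
open scoped ENNReal NNReal

namespace Pool.Agent.H62.ND.KEY2

open Pool.Agent.Helper28.ND Pool.Agent.H62.ND

theorem main (hWEQ : S_WEQ) (hKB : S_KB) (hMOLG : S_MOLG) (hMOLD : S_MOLD) (hENER : S_ENER) :
    S_KEY2 := by
  intro d S K H c h v hS hD e he
  have hS0 : 0 < S := by linarith
  set F := FF c h v with hF
  have hsrc : Src S F := src_FF hD
  obtain ⟨bΦ, bV, hz, -⟩ := hKB d S F hS0 hsrc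
  have bF : BMP F := bmp_of_src hsrc
  set Φ := Phi S F with hΦ
  have hv : ∀ i, (fun t x => v t x i) = Vel S F i := fun i => by
    funext t x
    exact hD.eq t x i
  obtain ⟨B1, hB10, hB1, hB1'⟩ := mol_bdd hMOLG bΦ
  obtain ⟨B2, hB20, hB2, hB2'⟩ := mol_bdd hMOLG bF
  choose B3 hB30 hB3 hB3' using fun i => mol_bdd hMOLG (bV i)
  set I := Ioc (1 : ℝ) (S + 1) with hI
  have hIm : MeasurableSet I := measurableSet_Ioc
  have hIf : volume I ≠ ⊤ := by rw [hI, Real.volume_Ioc]; exact ENNReal.ofReal_ne_top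
  -- the integrands
  set G : ℕ → ℝ × (Fin d → ℝ) → ℝ := fun n z =>
    2 * (U (mol n Φ) z * U (mol n F) z) - 2 * ∑ i, U (mol n (Vel S F i)) z ^ 2 with hG
  set G0 : ℝ × (Fin d → ℝ) → ℝ := fun z =>
    2 * (U Φ z * U F z) - 2 * ∑ i, U (Vel S F i) z ^ 2 with hG0
  set B : ℝ := 2 * (B1 * B2) + 2 * ∑ i, B3 i ^ 2 with hB
  have bound : ∀ (x y : ℝ) (w : Fin d → ℝ), |x| ≤ B1 → |y| ≤ B2 → (∀ i, |w i| ≤ B3 i) →
      |2 * (x * y) - 2 * ∑ i, w i ^ 2| ≤ B := by
    intro x y w hx hy hw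
    have h1 : |x * y| ≤ B1 * B2 := by
      rw [abs_mul]
      exact mul_le_mul hx hy (abs_nonneg _) hB10
    have h2 : ∑ i, w i ^ 2 ≤ ∑ i, B3 i ^ 2 := Finset.sum_le_sum fun i _ => by
      rw [← sq_abs (w i)]
      exact pow_le_pow_left₀ (abs_nonneg _) (hw i) 2
    have h3 : 0 ≤ ∑ i, w i ^ 2 := Finset.sum_nonneg fun i _ => sq_nonneg _
    rw [hB, abs_le]
    rw [abs_le] at h1
    constructor <;> linarith [h1.1, h1.2]
  have mG : ∀ n, Measurable (G n) := fun n =>
    (((mol_meas hMOLG bΦ n).measurable.mul (mol_meas hMOLG bF n).measurable).const_mul 2).sub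
      ((Finset.measurable_sum _ fun i _ =>
        ((mol_meas hMOLG (bV i) n).measurable.pow_const 2)).const_mul 2)
  have mG0 : Measurable G0 :=
    ((bΦ.meas.mul bF.meas).const_mul 2).sub
      ((Finset.measurable_sum _ fun i _ => ((bV i).meas.pow_const 2)).const_mul 2)
  have bG : ∀ n z, z.1 ∈ I → |G n z| ≤ B := fun n z hz =>
    bound _ _ _ (hB1' n z.1 z.2 hz.1.le) (hB2' n z.1 z.2 hz.1.le)
      (fun i => hB3' i n z.1 z.2 hz.1.le)
  have bG0 : ∀ z, |G0 z| ≤ B := fun z =>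
    bound _ _ _ (hB1 z.1 z.2) (hB2 z.1 z.2) (fun i => hB3 i z.1 z.2)
  have iG : ∀ n, IntegrableOn (G n) (I ×ˢ Q d) := fun n => int_bdd hIm hIf (mG n) (bG n)
  have iG0 : IntegrableOn G0 (I ×ˢ Q d) := int_bdd hIm hIf mG0 (fun z _ => bG0 z)
  -- the energy identity
  have energy : ∀ n : ℕ, ∫ x in Q d, (mol n Φ 1 x) ^ 2 = ∫ z in I ×ˢ Q d, G n z := by
    intro n
    have h1 := hENER d (mol n Φ) (fun s => s ^ 2) (fun _ => 0) ((hMOLG d Φ bΦ).1 n)
      (by fun_prop) contDiff_const 1 (S + 1) (by linarith)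
    have hn : 1 / (4 * ((n : ℝ) + 1)) < 1 := by
      rw [div_lt_one (by positivity)]
      have : (0 : ℝ) ≤ n := Nat.cast_nonneg n
      linarith
    have hend : ∀ x, mol n Φ (S + 1) x = 0 := fun x =>
      (hMOLG d Φ bΦ).2.2.2 S (fun t ht x => (hz t ht x).1) n (S + 1) (by linarith) x
    have dg : ∀ s : ℝ, deriv (fun s : ℝ => s ^ 2) s = 2 * s := fun s => by simp
    have dg' : deriv (fun s : ℝ => s ^ 2) = fun s => 2 * s := funext dg
    have ddg : ∀ s : ℝ, deriv (fun s : ℝ => 2 * s) s = 2 := fun s => by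
      simp
    simp only [sub_zero, hend, dg', ddg, deriv_const] at h1
    have h2 : ∫ t in Ioc 1 (S + 1), ∫ x in Q d, (2 * mol n Φ t x *
        (dt (mol n Φ) t x + lap (mol n Φ t) x) + 2 * ∑ i, (pd i (mol n Φ t) x) ^ 2) =
        ∫ t in Ioc 1 (S + 1), ∫ x in Q d, -(G n (t, x)) := by
      refine setIntegral_congr_fun measurableSet_Ioc fun t ht => ?_
      congr 1
      funext x
      have ht1 : 1 / (4 * ((n : ℝ) + 1)) < t := hn.trans ht.1
      have h3 := (hMOLD d Φ F bΦ bF).1 (fun f hf => (hWEQ d S F hS0 hsrc f hf).1) n t x ht1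
      have h4 : ∀ i, pd i (mol n Φ t) x = mol n (Vel S F i) t x := fun i =>
        (hMOLD d Φ (Vel S F i) bΦ (bV i)).2 i
          (fun f hf => (hWEQ d S F hS0 hsrc f hf).2 i) n t x ht1
      rw [h3]
      simp only [h4, hG, U]
      ring
    rw [h2] at h1
    have h5 : ∫ t in Ioc 1 (S + 1), ∫ x in Q d, -(G n (t, x)) = - ∫ z in I ×ˢ Q d, G n z := by
      have := iter_eq (I := I) (G := fun z => -(G n z)) (iG n).neg
      rw [← integral_neg]
      exact this
    rw [h5] at h1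
    have h6 : ∫ x in Q d, (0 : ℝ) ^ 2 = 0 := by simp
    rw [h6] at h1
    linarith
  -- the limit
  have lim : Tendsto (fun n => ∫ z in I ×ˢ Q d, G n z) atTop (𝓝 (∫ z in I ×ˢ Q d, G0 z)) := by
    refine tendsto_integral_of_dominated_convergence (fun _ => B)
      (fun n => (mG n).aestronglyMeasurable) (integrableOn_const (prod_finite hIf)) ?_ ?_
    · intro n
      rw [ae_restrict_iff' (hIm.prod (Q_meas d))]
      exact Eventually.of_forall fun z hz => bG n z hz.1
    · refine ae_restrict_of_ae ?_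
      have a1 := (hMOLG d Φ bΦ).2.2.1
      have a2 := (hMOLG d F bF).2.2.1
      have a3 : ∀ᵐ z : ℝ × (Fin d → ℝ), ∀ i,
          Tendsto (fun n => U (mol n (Vel S F i)) z) atTop (𝓝 (U (Vel S F i) z)) :=
        ae_all_iff.mpr fun i => (hMOLG d (Vel S F i) (bV i)).2.2.1
      filter_upwards [a1, a2, a3] with z z1 z2 z3
      exact ((z1.mul z2).const_mul 2).sub
        ((tendsto_finsetSum _ fun i _ => (z3 i).pow 2).const_mul 2)
  -- the value of the limit
  have val : ∫ z in I ×ˢ Q d, G0 z = 2 * (∫ t in Ioo 1 S, ∫ x in Q d, (F t x * Φ t x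
        - ∑ i, (v t x i) ^ 2)) := by
    rw [← iter_eq iG0]
    have h1 : ∀ t x, G0 (t, x) = 2 * (F t x * Φ t x - ∑ i, (v t x i) ^ 2) := by
      intro t x
      simp only [hG0, U]
      have : ∀ i, Vel S F i t x = v t x i := fun i => (hD.eq t x i).symm
      simp only [this]
      ring
    have h1' : ∀ t, ∫ x in Q d, G0 (t, x) =
        2 * ∫ x in Q d, (F t x * Φ t x - ∑ i, (v t x i) ^ 2) := by
      intro t
      simp only [h1]
      exact integral_const_mul _ _
    simp only [h1']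
    have hz2 : ∀ t ∈ I \ Ioo 1 S, 2 * ∫ x in Q d, (F t x * Φ t x - ∑ i, (v t x i) ^ 2) = 0 := by
      intro t ht
      have hSt : S ≤ t := by
        by_contra hlt
        push Not at hlt
        exact ht.2 ⟨ht.1.1, hlt⟩
      have h2 : ∀ x, F t x * Φ t x - ∑ i, (v t x i) ^ 2 = 0 := by
        intro x
        have h3 : ∀ i, v t x i = 0 := fun i => by rw [hD.eq]; exact (hz t hSt x).2 i
        rw [hsrc.supp t (Or.inr hSt) x]
        simp [h3]
      simp only [h2]
      simp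
    have h7 := setIntegral_eq_of_subset_of_forall_sdiff_eq_zero (μ := volume) hIm
      (fun t (ht : t ∈ Ioo 1 S) => (⟨ht.1, by linarith [ht.2]⟩ : t ∈ I)) hz2
    rw [h7, integral_const_mul]
  rw [val] at lim
  have h9 := lim.eventually (gt_mem_nhds (by linarith :
    2 * (∫ t in Ioo 1 S, ∫ x in Q d, (F t x * Φ t x - ∑ i, (v t x i) ^ 2)) <
    2 * (∫ t in Ioo 1 S, ∫ x in Q d, (F t x * Φ t x - ∑ i, (v t x i) ^ 2)) + e))
  filter_upwards [h9] with n hn
  rw [energy n]
  exact hn.le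

end Pool.Agent.H62.ND.KEY2
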